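import Pool.Agent.Helper77.SND.Stmts

set_option autoImplicit false

namespace Pool.Agent.Helper77.SND

theorem fin_nbr {m : ℕ} (H : SimpleGraph (Fin m)) (hC : C3 H) (x0 : Fin m) :
    ∃ y, H.Adj x0 y := by
  classical
  obtain ⟨hm, h⟩ := hC
  have hne : ∃ y : Fin m, y ≠ x0 := by
    have : Nontrivial (Fin m) := Fin.nontrivial_iff_two_le.2 (by omega)
    exact exists_ne x0
  obtain ⟨y0, hy0⟩ := hne
  obtain ⟨x, y, hx, hy, hxy⟩ := h (fun x => if x = x0 then some true else some false) x0 x0
    (by
      intro x hx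
      by_cases hx0 : x = x0
      · rw [if_pos hx0] at hx
        exact absurd hx (by simp)
      · rw [if_neg hx0] at hx
        exact absurd hx (by simp))
    ⟨x0, if_pos rfl⟩ ⟨y0, if_neg hy0⟩
  by_cases hxe : x = x0
  · exact ⟨y, hxe ▸ hxy⟩
  · rw [if_neg hxe] at hx
    exact absurd hx (by simp)

/-- the two copies of a graph glued along an independent set -/
theorem fin_two (hGL : ST_GLUE) {m : ℕ} (H : SimpleGraph (Fin m)) (hC : C3 H) (V : Type)
    [Finite V] (Γ : SimpleGraph V) (D : ℕ) (w : Fin D → V) (hind : ∀ a b, ¬ Γ.Adj (w a) (w b))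
    (hfree : ∀ f, ¬ Copy H Γ f) :
    ∃ (VC : Type) (_ : Finite VC) (C : SimpleGraph VC) (i j : V → VC) (κ : Sym2 VC → Bool),
      Function.Injective i ∧ Function.Injective j ∧ (∀ k, j (w k) = i (w k)) ∧
      (∀ x y, Γ.Adj x y → C.Adj (i x) (i y)) ∧ (∀ x y, Γ.Adj x y → C.Adj (j x) (j y)) ∧
      (∀ x y, Γ.Adj x y → κ s(i x, i y) = true) ∧ (∀ x y, Γ.Adj x y → κ s(j x, j y) = false) ∧
      Good H C κ := by
  classical
  obtain ⟨τ, hτ⟩ : ∃ τ : V → Option V, τ = fun v => if v ∈ Set.range w then some v else none :=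
    ⟨_, rfl⟩
  have hτ1 : ∀ a v, τ a = some v → a = v ∧ a ∈ Set.range w := by
    intro a v h
    rw [hτ] at h
    by_cases ha : a ∈ Set.range w
    · simp only [if_pos ha, Option.some.injEq] at h
      exact ⟨h, ha⟩
    · simp only [if_neg ha] at h
      exact absurd h (by simp)
  have hτ2 : ∀ k, τ (w k) = some (w k) := by
    intro k
    rw [hτ]
    simp only [if_pos (Set.mem_range_self k)]
  obtain ⟨VC, hfin, C, i, j, hi, hj, hij, hsurj, hCi, hCj, hout, hcol⟩ := hGL V V Γ Γ τ
    (by
      intro a b v ha hb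
      rw [(hτ1 a v ha).1, (hτ1 b v hb).1])
    (by
      intro a b v v' ha hb hab
      rw [← (hτ1 a v ha).1, ← (hτ1 b v' hb).1]
      exact hab)
  obtain ⟨κ, hκ1, hκ2⟩ := hcol (fun _ => true) (fun _ => false) (by
    intro a b v v' ha hb hab
    obtain ⟨k, hk⟩ := (hτ1 a v ha).2
    obtain ⟨l, hl⟩ := (hτ1 b v' hb).2
    rw [← hk, ← hl] at hab
    exact absurd hab (hind k l))
  refine ⟨VC, hfin, C, i, j, κ, hi, hj, fun k => (hij _ _).2 (hτ2 k), fun x y h => (hCi x y).2 h,
    hCj, hκ1, hκ2, ?_⟩
  have hedge : ∀ z z', C.Adj z z' → (∃ x y, z = i x ∧ z' = i y ∧ Γ.Adj x y) ∨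
      ∃ x y, z = j x ∧ z' = j y ∧ Γ.Adj x y := by
    intro z z' h
    rcases hsurj z with ⟨x, hx⟩ | ⟨a, ha, hz⟩
    · rcases hsurj z' with ⟨y, hy⟩ | ⟨b, hb, hz'⟩
      · left
        refine ⟨x, y, hx, hy, ?_⟩
        rw [hx, hy] at h
        exact (hCi x y).1 h
      · right
        rw [hz'] at h
        obtain ⟨a', ha', hab⟩ := hout b z hb h.symm
        exact ⟨a', b, ha', hz', hab.symm⟩
    · right
      rw [hz] at h
      obtain ⟨b, hb, hab⟩ := hout a z' ha h
      exact ⟨a, b, hz, hb, hab⟩
  intro b f hf
  by_contra hcon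
  push Not at hcon
  -- a common argument for both embeddings
  have main : ∀ h : V → VC, Function.Injective h →
      (∀ x y, H.Adj x y → ∃ a c, f x = h a ∧ f y = h c ∧ Γ.Adj a c) → False := by
    intro h hh hH
    have hex : ∀ x, ∃ a, f x = h a := by
      intro x
      obtain ⟨y, hy⟩ := fin_nbr H hC x
      obtain ⟨a, _, ha, _⟩ := hH x y hy
      exact ⟨a, ha⟩
    choose g hg using hex
    apply hfree g
    constructor
    · intro x y hxy
      apply hf.1
      rw [hg x, hg y, hxy]
    · intro x y hxy
      obtain ⟨a, c, ha, hc, hac⟩ := hH x y hxy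
      have e1 : g x = a := hh ((hg x).symm.trans ha)
      have e2 : g y = c := hh ((hg y).symm.trans hc)
      rw [e1, e2]
      exact hac
  cases b with
  | true =>
    apply main i hi
    intro x y hxy
    rcases hedge _ _ (hf.2 x y hxy) with h | ⟨a, c, ha, hc, hac⟩
    · exact h
    · have h1 := hcon x y hxy
      rw [ha, hc, hκ2 a c hac] at h1
      exact absurd h1 (by simp)
  | false =>
    apply main j hj
    intro x y hxy
    rcases hedge _ _ (hf.2 x y hxy) with ⟨a, c, ha, hc, hac⟩ | h
    · have h1 := hcon x y hxy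
      rw [ha, hc, hκ1 a c hac] at h1
      exact absurd h1 (by simp)
    · exact h

/-- the colour as an element of `Fin 2` -/
def fin_cc (b : Bool) : Fin 2 := if b then 1 else 0

theorem fin_cc_dec (c : Fin 2) (b : Bool) (h : decide (c = 1) = b) : c = fin_cc b := by
  revert c b
  decide

theorem fin_pigeon (D δ : ℕ) (hD : D = 2 * (δ - 1) + 1) (col : Fin D → Fin 2) :
    ∃ (b : Bool) (T : Finset (Fin D)), T.card = δ ∧ ∀ k ∈ T, col k = fin_cc b := by
  classical
  have h := Finset.card_filter_add_card_filter_not (s := (Finset.univ : Finset (Fin D)))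
    (fun k => col k = fin_cc true)
  rw [Finset.card_univ, Fintype.card_fin] at h
  by_cases h1 : δ ≤ (Finset.univ.filter (fun k => col k = fin_cc true)).card
  · obtain ⟨T, hT, hT2⟩ := Finset.exists_subset_card_eq h1
    exact ⟨true, T, hT2, fun k hk => (Finset.mem_filter.1 (hT hk)).2⟩
  · have h2 : δ ≤ (Finset.univ.filter (fun k => ¬ col k = fin_cc true)).card := by omega
    obtain ⟨T, hT, hT2⟩ := Finset.exists_subset_card_eq h2
    refine ⟨false, T, hT2, fun k hk => ?_⟩
    have h3 := (Finset.mem_filter.1 (hT hk)).2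
    have key : ∀ c : Fin 2, ¬ c = fin_cc true → c = fin_cc false := by decide
    exact key _ h3

theorem st_FIN (h1 : ST_GLUE) : ST_FIN := by
  classical
  intro m H hC hF hcrit
  have hm : 4 ≤ m := hC.1
  have hδ : 1 ≤ H.minDegree := by
    have : Nonempty (Fin m) := ⟨⟨0, by omega⟩⟩
    obtain ⟨v, hv⟩ := H.exists_minimal_degree_vertex
    rw [hv]
    obtain ⟨u, hu⟩ := fin_nbr H hC v
    rw [← SimpleGraph.card_neighborFinset_eq_degree]
    exact Finset.card_pos.2 ⟨u, (H.mem_neighborFinset v u).2 hu⟩
  obtain ⟨V, hVfin, Γ, w, hw, hind, hfree, hT⟩ := hcrit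
  obtain ⟨VC, hCfin, C, i, j, κ, hi, hj, hji, hCi, hCj, hκ1, hκ2, hgood⟩ :=
    fin_two h1 H hC V Γ _ w hind hfree
  obtain ⟨V', hfin', G', i', hi', hG', ⟨e0, he0, _⟩, hall⟩ := hF VC C κ hgood
  refine Pool.Agent.Helper58.RS.closure H (by omega) hδ
    (Apx G' (fun z => ∃ k, z = i' (i (w k)))) {none} ?_ ?_ ?_
  · -- Ramsey
    intro c
    obtain ⟨e, he⟩ : ∃ e : Sym2 V' → Bool, e = fun z => decide (c (z.map some) = 1) := ⟨_, rfl⟩
    have hce : ∀ (z : Sym2 V') (b : Bool), e z = b → c (z.map some) = fin_cc b := by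
      intro z b h
      rw [he] at h
      exact fin_cc_dec _ _ h
    by_cases hg : Good H G' e
    · -- the colouring is forced
      have hh : ∀ b : Bool, ∃ h : V → VC, Function.Injective h ∧ (∀ k, h (w k) = i (w k)) ∧
          (∀ x y, Γ.Adj x y → C.Adj (h x) (h y)) ∧
          (∀ x y, Γ.Adj x y → e s(i' (h x), i' (h y)) = b) := by
        intro b
        rcases hall e hg with hA | hB
        · cases b with
          | true => exact ⟨i, hi, fun _ => rfl, hCi, fun x y hxy => by
              rw [hA _ _ (hCi x y hxy), hκ1 x y hxy]⟩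
          | false => exact ⟨j, hj, hji, hCj, fun x y hxy => by
              rw [hA _ _ (hCj x y hxy), hκ2 x y hxy]⟩
        · cases b with
          | true => exact ⟨j, hj, hji, hCj, fun x y hxy => by
              rw [hB _ _ (hCj x y hxy), hκ2 x y hxy]; rfl⟩
          | false => exact ⟨i, hi, fun _ => rfl, hCi, fun x y hxy => by
              rw [hB _ _ (hCi x y hxy), hκ1 x y hxy]; rfl⟩
      obtain ⟨b, T, hTc, hTcol⟩ := fin_pigeon _ H.minDegree rfl
        (fun k => c s(none, some (i' (i (w k)))))
      obtain ⟨h, hinj, hwk, hadj, hcol⟩ := hh b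
      obtain ⟨f, hf⟩ := hT T hTc
      refine ⟨fin_cc b, fun x => (f x).map (fun v => i' (h v)), ?_, fun _ => Set.mem_univ _, ?_⟩
      · exact (Option.map_injective (fun a b hab => hinj (hi' hab))).comp hf.1
      · intro x y hxy
        have hxy' := hf.2 x y hxy
        show (Apx G' (fun z => ∃ k, z = i' (i (w k)))).Adj ((f x).map (fun v => i' (h v)))
          ((f y).map (fun v => i' (h v))) ∧
          c s((f x).map (fun v => i' (h v)), (f y).map (fun v => i' (h v))) = fin_cc b
        cases hfx : f x with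
        | none =>
          cases hfy : f y with
          | none =>
            rw [hfx, hfy] at hxy'
            exact hxy'.elim
          | some v =>
            rw [hfx, hfy] at hxy'
            obtain ⟨k, hk, hv⟩ : ∃ k ∈ T, v = w k := hxy'
            refine ⟨⟨k, ?_⟩, ?_⟩
            · show i' (h v) = i' (i (w k))
              rw [hv, hwk]
            · show c s(none, some (i' (h v))) = fin_cc b
              rw [hv, hwk]
              exact hTcol k hk
        | some u =>
          cases hfy : f y with
          | none =>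
            rw [hfx, hfy] at hxy'
            obtain ⟨k, hk, hv⟩ : ∃ k ∈ T, u = w k := hxy'
            refine ⟨⟨k, ?_⟩, ?_⟩
            · show i' (h u) = i' (i (w k))
              rw [hv, hwk]
            · show c s(some (i' (h u)), none) = fin_cc b
              rw [hv, hwk, Sym2.eq_swap]
              exact hTcol k hk
          | some v =>
            rw [hfx, hfy] at hxy'
            have huv : Γ.Adj u v := hxy'
            refine ⟨(hG' _ _).2 (hadj u v huv), ?_⟩
            exact hce s(i' (h u), i' (h v)) b (hcol u v huv)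
    · unfold Good at hg
      push Not at hg
      obtain ⟨b, f, hf, hfb⟩ := hg
      refine ⟨fin_cc b, fun x => some (f x), ?_, fun _ => Set.mem_univ _, ?_⟩
      · exact (Option.some_injective _).comp hf.1
      · intro x y hxy
        refine ⟨hf.2 x y hxy, ?_⟩
        exact hce s(f x, f y) b (hfb x y hxy)
  · -- not Ramsey without the new vertex
    intro hR
    obtain ⟨c1, hc1⟩ : ∃ c1 : Sym2 (Option V') → Fin 2,
        ∀ z : Sym2 V', c1 (z.map some) = fin_cc (e0 z) := by
      refine ⟨fun y => if h : ∃ z : Sym2 V', z.map some = y then fin_cc (e0 h.choose) else 0,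
        fun z => ?_⟩
      have hex : ∃ z' : Sym2 V', z'.map some = z.map some := ⟨z, rfl⟩
      show (if h : ∃ z' : Sym2 V', z'.map some = z.map some then fin_cc (e0 h.choose) else 0) =
        fin_cc (e0 z)
      rw [dif_pos hex]
      exact congrArg (fun t => fin_cc (e0 t))
        (Sym2.map.injective (Option.some_injective _) hex.choose_spec)
    obtain ⟨col, f, hf, hfS, hfa⟩ := hR c1
    have hex : ∀ x, ∃ a, f x = some a := by
      intro x
      have h := hfS x
      cases hfx : f x with
      | none =>
        exfalso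
        rw [hfx] at h
        exact h rfl
      | some a => exact ⟨a, rfl⟩
    choose k hk using hex
    have hcopy : Copy H G' k := by
      constructor
      · intro x y hxy
        apply hf
        rw [hk x, hk y, hxy]
      · intro x y hxy
        have h2 := (hfa x y hxy).1
        rw [hk x, hk y] at h2
        exact h2
    obtain ⟨x, y, hxy, hne⟩ := he0 (decide (col = 1)) k hcopy
    apply hne
    have h3 := (hfa x y hxy).2
    rw [hk x, hk y] at h3
    have h4 := hc1 s(k x, k y)
    have h5 : fin_cc (e0 s(k x, k y)) = col := by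
      rw [← h4]
      exact h3
    rw [← h5]
    cases e0 s(k x, k y) <;> decide
  · intro z hz
    have hz' : z = none := hz
    rw [hz']
    have hsub : (Apx G' (fun z => ∃ k, z = i' (i (w k)))).neighborSet none ⊆
        ((Finset.univ.image (fun k => some (i' (i (w k)))) : Finset (Option V')) :
          Set (Option V')) := by
      intro y hy
      rw [SimpleGraph.mem_neighborSet] at hy
      cases y with
      | none => exact hy.elim
      | some v =>
        obtain ⟨k, hk⟩ : ∃ k, v = i' (i (w k)) := hy
        rw [Finset.mem_coe, Finset.mem_image]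
        exact ⟨k, Finset.mem_univ _, by rw [hk]⟩
    refine (Set.ncard_le_ncard hsub (Finset.finite_toSet _)).trans ?_
    rw [Set.ncard_coe_finset]
    refine Finset.card_image_le.trans ?_
    rw [Finset.card_univ, Fintype.card_fin]

end Pool.Agent.Helper77.SND
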